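import Pool.Agent.Y951.MW.Many2

/-!
# Montgomery's inequality for almost all primes `q`, all `N` at once (helper35)
-/

set_option autoImplicit false

namespace Pool.Agent.N35.MK

open Finset Real Polynomial
open Pool.Agent.Y933.KD
open Pool.Agent.Y951.MW

/-- The inequality of `H_k(1/k)` with the constant `1` holds at `t + b/q` for ALL `1 ≤ b < q`, all real `ξ` and all
`N ≥ (2q)^(1+2/k)`. -/
def HK (k : ℕ) (ε t : ℝ) (q : ℕ) : Prop :=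
  ∀ N : ℕ, (2 * (q : ℝ)) ^ (1 + 2 / (k : ℝ)) ≤ (N : ℝ) → ∀ b : ℕ, 1 ≤ b → b < q → ∀ ξ : ℝ,
    ‖∑ n ∈ Finset.Icc 1 N, Complex.exp (2 * (Real.pi : ℂ) * Complex.I *
      (((t + (b : ℝ) / (q : ℝ)) * (n : ℝ) ^ k + ξ * (n : ℝ) : ℝ) : ℂ))‖ ≤
    (N : ℝ) ^ (1 + ε) * (1 / (q : ℝ) + 1 / (N : ℝ) + (q : ℝ) / (N : ℝ) ^ k) ^ (1 / (k : ℝ))

theorem pcount {k : ℕ} (hk : 4 ≤ k) {ε : ℝ} (hε : 0 < ε) :
    ∃ N₀ : ℕ, ∀ N : ℕ, N₀ ≤ N → ∀ Q : ℕ, (2 * (Q : ℝ)) ^ (1 + 2 / (k : ℝ)) ≤ N → ∀ t : ℝ,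
    (({q : ℕ | q.Prime ∧ Q < q ∧ q ≤ 2 * Q ∧ ∃ b : ℕ, 1 ≤ b ∧ b < q ∧ ∃ (ξ : ℝ) (u v : ℕ), v ≤ N ∧
      (N : ℝ) ^ (1 + ε) / (q : ℝ) ^ (1 / (k : ℝ)) <
      ‖∑ n ∈ Finset.Ioc u v, e ((t + (b : ℝ) / (q : ℝ)) * (n : ℝ) ^ k + ξ * (n : ℝ))‖}.ncard
        : ℕ) : ℝ) ≤ 2 * (2 * (Q : ℝ)) ^ (2 / (k : ℝ)) / (N : ℝ) ^ (2 * ε) := by
  classical
  have hkR : (4 : ℝ) ≤ k := by exact_mod_cast hk
  have hk0 : (0 : ℝ) < k := by linarith
  obtain ⟨N₀, h0⟩ := many_eta (k := k) (by omega) (η := 1 / (k : ℝ)) (by positivity)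
    (by rw [div_le_div_iff₀ hk0 (by norm_num)]; linarith) hε
  refine ⟨max N₀ 1, fun N hN Q hQN t => ?_⟩
  have hN1 : 1 ≤ N := (le_max_right _ _).trans hN
  have hN0 : (0 : ℝ) < N := by exact_mod_cast hN1
  set P : Set ℕ := {q : ℕ | q.Prime ∧ Q < q ∧ q ≤ 2 * Q ∧ ∃ b : ℕ, 1 ≤ b ∧ b < q ∧ ∃ (ξ : ℝ) (u v : ℕ), v ≤ N ∧
      (N : ℝ) ^ (1 + ε) / (q : ℝ) ^ (1 / (k : ℝ)) <
      ‖∑ n ∈ Finset.Ioc u v, e ((t + (b : ℝ) / (q : ℝ)) * (n : ℝ) ^ k + ξ * (n : ℝ))‖} with hP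
  have hfin : P.Finite := (Set.finite_Iic (2 * Q)).subset fun q hq => hq.2.2.1
  have hex : ∀ q : ℕ, ∃ b : ℕ, q ∈ P → 1 ≤ b ∧ b < q ∧ ∃ (ξ : ℝ) (u v : ℕ), v ≤ N ∧
      (N : ℝ) ^ (1 + ε) / (q : ℝ) ^ (1 / (k : ℝ)) <
      ‖∑ n ∈ Finset.Ioc u v, e ((t + (b : ℝ) / (q : ℝ)) * (n : ℝ) ^ k + ξ * (n : ℝ))‖ := by
    intro q
    by_cases hq : q ∈ P
    · obtain ⟨_, _, _, b, h⟩ := hq
      exact ⟨b, fun _ => h⟩
    · exact ⟨0, fun h => absurd h hq⟩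
  choose b hb using hex
  set S : Finset (ℕ × ℤ[X]) := hfin.toFinset.image (fun q => (q, C ((b q : ℕ) : ℤ) * X ^ k)) with hS
  have hcard : S.card = P.ncard := by
    rw [hS, card_image_of_injOn, Set.ncard_eq_toFinset_card P hfin]
    intro q _ q' _ h
    exact congrArg Prod.fst h
  rw [← hcard]
  have h2k : 2 * (1 / (k : ℝ)) = 2 / k := by ring
  have h1 := h0 N ((le_max_left _ _).trans hN) Q (by rw [h2k]; exact hQN)
    (fun n => e (t * (n : ℝ) ^ k)) (fun n => (norm_e _).le) S ?_ ?_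
  · rw [h2k] at h1
    exact h1
  · intro s hs
    rw [hS, mem_image] at hs
    obtain ⟨q, hq, rfl⟩ := hs
    have hqP : q ∈ P := hfin.mem_toFinset.1 hq
    obtain ⟨hb1, hb2, -⟩ := hb q hqP
    obtain ⟨hp, hQ1, hQ2, -⟩ := hqP
    refine ⟨hp, hQ1, hQ2, ?_, ?_, ?_, ?_, ?_⟩
    · intro h
      have h' : (C ((b q : ℕ) : ℤ) * X ^ k : ℤ[X]) = 0 := h
      have h2 : (C ((b q : ℕ) : ℤ) * X ^ k : ℤ[X]).coeff k = 0 := by rw [h', coeff_zero]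
      rw [coeff_C_mul_X_pow, if_pos rfl] at h2
      have : b q = 0 := by exact_mod_cast h2
      omega
    · exact natDegree_C_mul_X_pow_le _ _
    · rw [coeff_C_mul_X_pow, if_neg (by omega)]
    · rw [coeff_C_mul_X_pow, if_neg (by omega)]
    · intro i
      rw [coeff_C_mul_X_pow]
      split_ifs
      · exact ⟨by positivity, by exact_mod_cast hb2⟩
      · exact ⟨le_refl _, by exact_mod_cast hp.pos⟩
  · intro s hs
    rw [hS, mem_image] at hs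
    obtain ⟨q, hq, rfl⟩ := hs
    have hqP : q ∈ P := hfin.mem_toFinset.1 hq
    obtain ⟨hb1, hb2, ξ, u, v, hv, h2⟩ := hb q hqP
    have hq0 : (0 : ℝ) < q := by exact_mod_cast hqP.1.pos
    refine ⟨ξ, u, v, hv, lt_of_lt_of_eq h2 ?_⟩
    congr 1
    refine sum_congr rfl fun n _ => ?_
    simp only
    rw [← e_add, eval_mul, eval_C, eval_pow, eval_X]
    congr 1
    push_cast
    field_simp
    ring

/-- one dyadic interval, all `N` at once -/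
theorem dyad {k : ℕ} (hk : 4 ≤ k) {ε : ℝ} (hε : 0 < ε) :
    ∃ (N₃ : ℕ) (K : ℝ), 0 ≤ K ∧ ∀ t : ℝ, ∀ Q : ℕ, 1 ≤ Q →
    (({q : ℕ | q.Prime ∧ Q < q ∧ q ≤ 2 * Q ∧ N₃ ≤ q ∧ ¬ HK k ε t q}.ncard : ℕ) : ℝ) ≤
      K * (2 * (Q : ℝ)) ^ (2 / (k : ℝ)) := by
  classical
  have hkR : (4 : ℝ) ≤ k := by exact_mod_cast hk
  have hk0 : (0 : ℝ) < k := by linarith
  obtain ⟨N₀, h0⟩ := pcount hk (half_pos hε)
  obtain ⟨N₂, hN₂⟩ : ∃ N₂ : ℕ, ∀ N : ℕ, N₂ ≤ N → (2 * (N : ℝ)) ^ (1 + ε / 2) ≤ (N : ℝ) ^ (1 + ε) := by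
    refine ⟨⌈((2 : ℝ) ^ (1 + ε / 2)) ^ (2 / ε)⌉₊ + 1, fun N hN => ?_⟩
    have hN1 : 1 ≤ N := by omega
    have hN0 : (0 : ℝ) < N := by exact_mod_cast hN1
    have h1 : ((2 : ℝ) ^ (1 + ε / 2)) ^ (2 / ε) ≤ N := (Nat.le_ceil _).trans (by exact_mod_cast (by omega :
      ⌈((2 : ℝ) ^ (1 + ε / 2)) ^ (2 / ε)⌉₊ ≤ N))
    have h2 : (2 : ℝ) ^ (1 + ε / 2) ≤ (N : ℝ) ^ (ε / 2) := by
      have h3 := Real.rpow_le_rpow (by positivity) h1 (by positivity : 0 ≤ ε / 2)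
      rw [← Real.rpow_mul (by positivity)] at h3
      have h4 : 2 / ε * (ε / 2) = 1 := by field_simp
      rwa [h4, Real.rpow_one] at h3
    rw [Real.mul_rpow (by norm_num) hN0.le]
    have h5 : (N : ℝ) ^ (1 + ε) = (N : ℝ) ^ (ε / 2) * (N : ℝ) ^ (1 + ε / 2) := by
      rw [← Real.rpow_add hN0]
      congr 1
      ring
    rw [h5]
    exact mul_le_mul_of_nonneg_right h2 (by positivity)
  obtain ⟨N₃, hN₃⟩ : ∃ N₃ : ℕ, N₃ = max (max N₀ N₂) 2 := ⟨_, rfl⟩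
  have hr0 : (0 : ℝ) < (2 : ℝ) ^ (-ε) := by positivity
  have hr1 : (2 : ℝ) ^ (-ε) < 1 := by
    apply Real.rpow_lt_one_of_one_lt_of_neg (by norm_num) (by linarith)
  refine ⟨N₃, 2 * (1 - (2 : ℝ) ^ (-ε))⁻¹, mul_nonneg (by norm_num) (inv_nonneg.2 (by linarith)), fun t Q hQ => ?_⟩
  set T : Set ℕ := {q : ℕ | q.Prime ∧ Q < q ∧ q ≤ 2 * Q ∧ N₃ ≤ q ∧ ¬ HK k ε t q} with hT
  have hfin : T.Finite := (Set.finite_Iic (2 * Q)).subset fun q hq => hq.2.2.1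
  obtain ⟨P, hP⟩ : ∃ P : ℕ → Set ℕ, P = fun j => {q : ℕ | q.Prime ∧ Q < q ∧ q ≤ 2 * Q ∧ ∃ b : ℕ, 1 ≤ b ∧ b < q ∧
      ∃ (ξ : ℝ) (u v : ℕ), v ≤ 2 ^ j ∧
      (((2 ^ j : ℕ) : ℝ)) ^ (1 + ε / 2) / (q : ℝ) ^ (1 / (k : ℝ)) <
      ‖∑ n ∈ Finset.Ioc u v, e ((t + (b : ℝ) / (q : ℝ)) * (n : ℝ) ^ k + ξ * (n : ℝ))‖} := ⟨_, rfl⟩
  have hPfin : ∀ j, (P j).Finite := by
    intro j
    rw [hP]
    exact (Set.finite_Iic (2 * Q)).subset fun q hq => hq.2.2.1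
  have key : ∀ q : ℕ, ∃ j : ℕ, q ∈ T → q ∈ P j ∧ N₀ ≤ 2 ^ j ∧ (2 * (Q : ℝ)) ^ (1 + 2 / (k : ℝ)) ≤ ((2 ^ j : ℕ) : ℝ) := by
    intro q
    by_cases hq : q ∈ T
    · obtain ⟨hp, hq1, hq2, hq3, hbad⟩ := hq
      unfold HK at hbad
      push Not at hbad
      obtain ⟨N, hN, b, hb1, hb2, ξ, hlt⟩ := hbad
      have hq0 : (0 : ℝ) < q := by exact_mod_cast hp.pos
      have hq1R : (1 : ℝ) ≤ q := by exact_mod_cast hp.one_lt.le
      have hNq : (q : ℝ) ≤ N := by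
        refine le_trans ?_ hN
        calc (q : ℝ) ≤ 2 * q := by linarith
          _ = (2 * (q : ℝ)) ^ (1 : ℝ) := (Real.rpow_one _).symm
          _ ≤ (2 * (q : ℝ)) ^ (1 + 2 / (k : ℝ)) := by
            apply Real.rpow_le_rpow_of_exponent_le (by linarith)
            have : 0 ≤ 2 / (k : ℝ) := by positivity
            linarith
      have hNqN : q ≤ N := by exact_mod_cast hNq
      have hN3 : N₃ ≤ N := hq3.trans hNqN
      have hN2 : 2 ≤ N := le_trans (by rw [hN₃]; exact le_max_right _ _) hN3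
      have hN0' : N₀ ≤ N := le_trans (by rw [hN₃]; exact (le_max_left _ _).trans (le_max_left _ _)) hN3
      have hN2' : N₂ ≤ N := le_trans (by rw [hN₃]; exact (le_max_right _ _).trans (le_max_left _ _)) hN3
      have hNR : (0 : ℝ) < N := by linarith
      obtain ⟨j, hj⟩ : ∃ j, j = Nat.clog 2 N := ⟨_, rfl⟩
      have hj1 : N ≤ 2 ^ j := by rw [hj]; exact Nat.le_pow_clog (by norm_num) N
      have hj2 : 2 ^ j ≤ 2 * N := by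
        have h1 := Nat.pow_pred_clog_lt_self (b := 2) (by norm_num) (x := N) (by omega)
        have h2 : 0 < Nat.clog 2 N := Nat.clog_pos (by norm_num) hN2
        rw [← hj] at h1 h2
        have h3 : 2 ^ j = 2 * 2 ^ j.pred := by
          rw [← pow_succ']
          congr 1
          exact (Nat.succ_pred_eq_of_pos h2).symm
        omega
      refine ⟨j, fun _ => ⟨?_, hN0'.trans hj1, ?_⟩⟩
      · rw [hP]
        refine ⟨hp, hq1, hq2, b, hb1, hb2, ξ, 0, N, hj1, ?_⟩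
        have h1 : (((2 ^ j : ℕ) : ℝ)) ^ (1 + ε / 2) ≤ (N : ℝ) ^ (1 + ε) := by
          refine le_trans ?_ (hN₂ N hN2')
          apply Real.rpow_le_rpow (by positivity) _ (by positivity)
          exact_mod_cast hj2
        have h3 : (((2 ^ j : ℕ) : ℝ)) ^ (1 + ε / 2) / (q : ℝ) ^ (1 / (k : ℝ)) ≤
            (N : ℝ) ^ (1 + ε) * (1 / (q : ℝ) + 1 / (N : ℝ) + (q : ℝ) / (N : ℝ) ^ k) ^ (1 / (k : ℝ)) := by
          rw [div_eq_mul_inv, ← Real.inv_rpow hq0.le]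
          refine mul_le_mul h1 ?_ (by positivity) (by positivity)
          refine Real.rpow_le_rpow (by positivity) ?_ (by positivity)
          have h4 : (0 : ℝ) ≤ 1 / (N : ℝ) := by positivity
          have h5 : (0 : ℝ) ≤ (q : ℝ) / (N : ℝ) ^ k := by positivity
          rw [one_div]
          linarith
        refine lt_of_le_of_lt h3 (hlt.trans_le (le_of_eq ?_))
        congr 1
        have h6 : Finset.Icc 1 N = Finset.Ioc 0 N := rfl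
        rw [h6]
        exact sum_congr rfl fun n _ => (e_eq _).symm
      · have h1 : (2 * (Q : ℝ)) ^ (1 + 2 / (k : ℝ)) ≤ (2 * (q : ℝ)) ^ (1 + 2 / (k : ℝ)) := by
          apply Real.rpow_le_rpow (by positivity) _ (by positivity)
          have : (Q : ℝ) ≤ q := by exact_mod_cast hq1.le
          linarith
        refine h1.trans (hN.trans ?_)
        exact_mod_cast hj1
    · exact ⟨0, fun h => absurd h hq⟩
  choose jj hjj using key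
  obtain ⟨J, hJ⟩ : ∃ J : Finset ℕ, J = hfin.toFinset.image jj := ⟨_, rfl⟩
  have hsub : T ⊆ ((J.biUnion fun j => (hPfin j).toFinset : Finset ℕ) : Set ℕ) := by
    intro q hq
    rw [mem_coe, mem_biUnion]
    refine ⟨jj q, ?_, ?_⟩
    · rw [hJ]
      exact mem_image_of_mem _ (hfin.mem_toFinset.2 hq)
    · exact (hPfin _).mem_toFinset.2 (hjj q hq).1
  have h1 : T.ncard ≤ ∑ j ∈ J, (hPfin j).toFinset.card := by
    have h2 := Set.ncard_le_ncard hsub (finite_toSet _)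
    rw [Set.ncard_coe_finset] at h2
    exact h2.trans card_biUnion_le
  have h2 : ∀ j ∈ J, (((hPfin j).toFinset.card : ℕ) : ℝ) ≤ 2 * (2 * (Q : ℝ)) ^ (2 / (k : ℝ)) * ((2 : ℝ) ^ (-ε)) ^ j := by
    intro j hj
    rw [hJ, mem_image] at hj
    obtain ⟨q, hq, rfl⟩ := hj
    have hqT : q ∈ T := hfin.mem_toFinset.1 hq
    obtain ⟨-, h3, h4⟩ := hjj q hqT
    have h5 := h0 (2 ^ jj q) h3 Q h4 t
    rw [← Set.ncard_eq_toFinset_card _ (hPfin _)]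
    have h6 : ((P (jj q)).ncard : ℝ) ≤ 2 * (2 * (Q : ℝ)) ^ (2 / (k : ℝ)) / (((2 ^ jj q : ℕ) : ℝ)) ^ (2 * (ε / 2)) := by
      rw [hP]
      exact h5
    refine h6.trans (le_of_eq ?_)
    have h7 : 2 * (ε / 2) = ε := by ring
    rw [h7, div_eq_mul_inv]
    congr 1
    push_cast
    rw [← Real.rpow_natCast, ← Real.rpow_natCast, ← Real.rpow_mul (by norm_num), ← Real.rpow_mul (by norm_num),
      ← Real.rpow_neg (by norm_num)]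
    congr 1
    ring
  have h3 : ∑ j ∈ J, ((2 : ℝ) ^ (-ε)) ^ j ≤ (1 - (2 : ℝ) ^ (-ε))⁻¹ := by
    rw [← tsum_geometric_of_lt_one hr0.le hr1]
    exact (summable_geometric_of_lt_one hr0.le hr1).sum_le_tsum _ (fun _ _ => by positivity)
  have h4 : (T.ncard : ℝ) ≤ ∑ j ∈ J, (((hPfin j).toFinset.card : ℕ) : ℝ) := by exact_mod_cast h1
  calc (T.ncard : ℝ) ≤ ∑ j ∈ J, (((hPfin j).toFinset.card : ℕ) : ℝ) := h4
    _ ≤ ∑ j ∈ J, 2 * (2 * (Q : ℝ)) ^ (2 / (k : ℝ)) * ((2 : ℝ) ^ (-ε)) ^ j := sum_le_sum h2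
    _ = 2 * (2 * (Q : ℝ)) ^ (2 / (k : ℝ)) * ∑ j ∈ J, ((2 : ℝ) ^ (-ε)) ^ j := by rw [mul_sum]
    _ ≤ 2 * (2 * (Q : ℝ)) ^ (2 / (k : ℝ)) * (1 - (2 : ℝ) ^ (-ε))⁻¹ :=
        mul_le_mul_of_nonneg_left h3 (by positivity)
    _ = _ := by ring

/-- **the count**: at most `K X^(2/k+δ)` primes `q ≤ X` are exceptional -/
theorem count {k : ℕ} (hk : 4 ≤ k) {ε : ℝ} (hε : 0 < ε) (t : ℝ) : ∀ δ : ℝ, 0 < δ → ∃ K : ℝ, ∀ X : ℕ, 1 ≤ X →
    ({q : ℕ | 1 ≤ q ∧ q ≤ X ∧ q.Prime ∧ ¬ HK k ε t q}.ncard : ℝ) ≤ K * (X : ℝ) ^ (2 / (k : ℝ) + δ) := by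
  classical
  have hkR : (4 : ℝ) ≤ k := by exact_mod_cast hk
  have hk0 : (0 : ℝ) < k := by linarith
  obtain ⟨N₃, K, hK, h0⟩ := dyad hk hε
  intro δ hδ
  refine ⟨(N₃ + 1) + K * (2 : ℝ) ^ (2 / (k : ℝ)) * (2 / δ + 1), fun X hX => ?_⟩
  have hX1 : (1 : ℝ) ≤ X := by exact_mod_cast hX
  have hX0 : (0 : ℝ) < X := by linarith
  obtain ⟨L, hL⟩ : ∃ L, L = Nat.log 2 X := ⟨_, rfl⟩
  obtain ⟨D, hD⟩ : ∃ D : ℕ → Set ℕ, D = fun i => {q : ℕ | q.Prime ∧ 2 ^ i < q ∧ q ≤ 2 * 2 ^ i ∧ N₃ ≤ q ∧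
    ¬ HK k ε t q} := ⟨_, rfl⟩
  have hDfin : ∀ i, (D i).Finite := by
    intro i
    rw [hD]
    exact (Set.finite_Iic (2 * 2 ^ i)).subset fun q hq => hq.2.2.1
  have hsub : {q : ℕ | 1 ≤ q ∧ q ≤ X ∧ q.Prime ∧ ¬ HK k ε t q} ⊆
      ((range (N₃ + 1) ∪ (range (L + 1)).biUnion fun i => (hDfin i).toFinset : Finset ℕ) : Set ℕ) := by
    rintro q ⟨hq1, hqX, hp, hbad⟩
    rw [mem_coe, mem_union, mem_range, mem_biUnion]
    by_cases hq3 : N₃ ≤ q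
    · right
      have hq2 := hp.two_le
      refine ⟨Nat.log 2 (q - 1), ?_, ?_⟩
      · rw [mem_range, hL]
        have := Nat.log_mono_right (b := 2) (show q - 1 ≤ X by omega)
        omega
      · rw [Set.Finite.mem_toFinset, hD]
        have h1 := Nat.pow_log_le_self 2 (show q - 1 ≠ 0 by omega)
        have h2 := Nat.lt_pow_succ_log_self (b := 2) (by norm_num) (q - 1)
        refine ⟨hp, by omega, ?_, hq3, hbad⟩
        rw [pow_succ] at h2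
        omega
    · left
      omega
  have h1 := Set.ncard_le_ncard hsub (finite_toSet _)
  rw [Set.ncard_coe_finset] at h1
  have h2 := h1.trans (card_union_le _ _)
  rw [card_range] at h2
  have h3 : (((range (L + 1)).biUnion fun i => (hDfin i).toFinset).card : ℝ) ≤
      ∑ i ∈ range (L + 1), K * (2 * ((2 ^ i : ℕ) : ℝ)) ^ (2 / (k : ℝ)) := by
    have h4 : (((range (L + 1)).biUnion fun i => (hDfin i).toFinset).card : ℝ) ≤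
        ∑ i ∈ range (L + 1), (((hDfin i).toFinset.card : ℕ) : ℝ) := by exact_mod_cast card_biUnion_le
    refine h4.trans (sum_le_sum fun i _ => ?_)
    rw [← Set.ncard_eq_toFinset_card _ (hDfin i)]
    have h5 := h0 t (2 ^ i) (Nat.one_le_two_pow)
    rw [hD]
    exact h5
  have h4 : ∀ i ∈ range (L + 1), K * (2 * ((2 ^ i : ℕ) : ℝ)) ^ (2 / (k : ℝ)) ≤ K * ((2 : ℝ) ^ (2 / (k : ℝ)) *
      (X : ℝ) ^ (2 / (k : ℝ))) := by
    intro i hi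
    rw [mem_range] at hi
    apply mul_le_mul_of_nonneg_left _ hK
    rw [← Real.mul_rpow (by norm_num) hX0.le]
    apply Real.rpow_le_rpow (by positivity) _ (by positivity)
    have h5 : 2 ^ i ≤ X := (Nat.pow_le_pow_right (by norm_num) (by omega : i ≤ L)).trans
      (by rw [hL]; exact Nat.pow_log_le_self 2 (by omega))
    have h6 : ((2 ^ i : ℕ) : ℝ) ≤ X := by exact_mod_cast h5
    linarith
  have h5 : ((L : ℝ) + 1) ≤ (2 / δ + 1) * (X : ℝ) ^ δ := by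
    have h6 : (L : ℝ) ≤ Real.logb 2 X := by rw [hL]; exact Real.natLog_le_logb X 2
    have h7 : Real.log X ≤ (X : ℝ) ^ δ / δ := Real.log_le_rpow_div hX0.le hδ
    have h8 : (1 / 2 : ℝ) ≤ Real.log 2 := by have := Real.log_two_gt_d9; linarith
    have h9 : 0 ≤ Real.log X := Real.log_nonneg hX1
    have h10 : Real.logb 2 X ≤ 2 * Real.log X := by
      rw [Real.logb, div_le_iff₀ (by linarith)]
      nlinarith
    have h11 : (1 : ℝ) ≤ (X : ℝ) ^ δ := Real.one_le_rpow hX1 hδ.le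
    have h12 : 2 * Real.log X ≤ 2 / δ * (X : ℝ) ^ δ := by
      calc 2 * Real.log X ≤ 2 * ((X : ℝ) ^ δ / δ) := by linarith
        _ = _ := by ring
    linarith
  have h6 : ∑ i ∈ range (L + 1), K * (2 * ((2 ^ i : ℕ) : ℝ)) ^ (2 / (k : ℝ)) ≤
      K * (2 : ℝ) ^ (2 / (k : ℝ)) * (2 / δ + 1) * (X : ℝ) ^ (2 / (k : ℝ) + δ) := by
    refine (sum_le_sum h4).trans ?_
    rw [sum_const, card_range, nsmul_eq_mul]
    push_cast
    rw [Real.rpow_add hX0]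
    have h7 : 0 ≤ K * ((2 : ℝ) ^ (2 / (k : ℝ)) * (X : ℝ) ^ (2 / (k : ℝ))) := by positivity
    calc ((L : ℝ) + 1) * (K * ((2 : ℝ) ^ (2 / (k : ℝ)) * (X : ℝ) ^ (2 / (k : ℝ))))
        ≤ ((2 / δ + 1) * (X : ℝ) ^ δ) * (K * ((2 : ℝ) ^ (2 / (k : ℝ)) * (X : ℝ) ^ (2 / (k : ℝ)))) :=
          mul_le_mul_of_nonneg_right h5 h7
      _ = _ := by ring
  have h7 : (1 : ℝ) ≤ (X : ℝ) ^ (2 / (k : ℝ) + δ) := Real.one_le_rpow hX1 (by positivity)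
  have h8 : (({q : ℕ | 1 ≤ q ∧ q ≤ X ∧ q.Prime ∧ ¬ HK k ε t q}.ncard : ℕ) : ℝ) ≤ ((N₃ : ℝ) + 1) +
      (((range (L + 1)).biUnion fun i => (hDfin i).toFinset).card : ℝ) := by exact_mod_cast h2
  have h9 : ((N₃ : ℝ) + 1) ≤ ((N₃ : ℝ) + 1) * (X : ℝ) ^ (2 / (k : ℝ) + δ) :=
    le_mul_of_one_le_right (by positivity) h7
  calc _ ≤ ((N₃ : ℝ) + 1) + (((range (L + 1)).biUnion fun i => (hDfin i).toFinset).card : ℝ) := h8
    _ ≤ ((N₃ : ℝ) + 1) * (X : ℝ) ^ (2 / (k : ℝ) + δ) +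
        K * (2 : ℝ) ^ (2 / (k : ℝ)) * (2 / δ + 1) * (X : ℝ) ^ (2 / (k : ℝ) + δ) := by linarith
    _ = _ := by ring

end Pool.Agent.N35.MK
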